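import Pool.Agent.H15.V.Main

/-!
# Windows of odd zeta values of ratio 3.2

For every odd `s ≥ 1` there is an odd `j` with `s + 2 ≤ j < 3.2 s` such that `ζ(j)` is irrational: one of the numbers
`ζ(s+2), ζ(s+4), …, ζ(j)`, `5 j < 16 s`. The literature (Zudilin) has this with the bound `8 s - 1`, the library of earlier
results with the bound `3.6 s` (`N334.W`).

Method. Hankel determinants of the linear form `Q ↦ ∑_{t ≥ 0} (1/b!) (d/dt)^b [R(t) Q(t(t+8n))]`,
`R(t) = ((6n)!)^h (2t+8n) / ∏_{k=n}^{7n} (t+k)^h`, on the polynomials `Q` of degree `< m = s (3n-1)`, `b = s - 1`,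
`h ≥ 11 s / 5` even. The values on integral polynomials are linear forms in `1, ζ(s+2), …, ζ(s+h-1)` with rational
coefficients whose denominators are bounded prime by prime. New against `N334.W`, besides the parameters: at the primes
`4n < p ≤ 6n` the poles `-k`, `-k-p` are congruent; the determinant is bounded by a lattice of polynomials with zeros of
the right orders at these classes and at the nodes `-c`, `c < n`, and its nonvanishing follows from a prime in this
range, where the leading terms at the classes with two poles are the values of a local functional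
`G ↦ [e^(h-1)] (G(1-e) - G(e)) (1-e)^(-(h+s))`, which is nondegenerate modulo `p` on the polynomials of degree
`< 2 (h-s)` (proved by a Padé argument).

The parts are in `Pool/Agent/H15/V/` (`Defs.lean`, `Stm.lean`: definitions and statements; `AR.lean`, `Fin.lean`,
`Main.lean`: the assembly).
-/

namespace Pool.Agent.Results.MP_c2395a_nt.WindowsRatio32

/-- **Windows of ratio 3.2.** For every odd `s ≥ 1` there is an odd integer `j` with `s + 2 ≤ j` and `5 j < 16 s` such
that `ζ(j) = ∑ 1/(n+1)^j` is irrational. -/
theorem result (s : ℕ) (hs : Odd s) :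
    ∃ j : ℕ, Odd j ∧ s + 2 ≤ j ∧ 5 * j < 16 * s ∧ Irrational (∑' n : ℕ, 1 / ((n : ℝ) + 1) ^ j) :=
  Pool.Agent.H15.V.windows s hs

end Pool.Agent.Results.MP_c2395a_nt.WindowsRatio32
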